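import Mathlib
import Pool.Agent.H181Z.SRLink

set_option autoImplicit false

namespace Pool.Agent.Results.MP_898d8d_co.SliceCore

open Pool.Agent.H181Z.SR

/-- Slice rank has the linear core property (with `L = 1`, `r₀ = 0` and `β` depending on `d` only)
over every field and for every `d ≥ 2`; so has partition rank for `d ≤ 3`. -/
theorem result.{u} (d : ℕ) (hd : 2 ≤ d) : ∃ β : ℝ, 0 < β ∧
    ∀ (F : Type u) [Field F] (T : (Fin d → ℕ) → F), (Function.support T).Finite →
      (∃ J : Fin d → Finset ℕ, (∀ i, (J i).card ≤ sliceRank T) ∧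
        β * sliceRank T ≤ sliceRank (restrict T J)) ∧
      (d ≤ 3 → ∃ J : Fin d → Finset ℕ, (∀ i, (J i).card ≤ partRank T) ∧
        β * partRank T ≤ partRank (restrict T J)) := by
  have hd' : (0 : ℝ) < d := by exact_mod_cast (by omega : 0 < d)
  refine ⟨(1 / (128 * (d : ℝ) ^ 2)) ^ d / (4 * d ^ 2), by positivity, fun F _ T hT =>
    ⟨slice_core (by omega) T hT, fun h3 => ?_⟩⟩
  simp only [partRank_eq hd h3]
  exact slice_core (by omega) T hT

end Pool.Agent.Results.MP_898d8d_co.SliceCore
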